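import Pool.Agent.W670.ML.Defs2

set_option autoImplicit false

/-!
ML2-DM (helper737): composita of several fields.
-/

namespace Pool.Agent.W737.ML2.DM

open NumberField Pool.Agent.W670.ML

/-- the relative discriminant of the bottom field is one -/
theorem relDisc_bot (h2 : S_DI) (K Ω : Type) [Field K] [NumberField K] [Field Ω] [Algebra K Ω]
    (M : IntermediateField K Ω) (hM : M = ⊥) :
    ∃ _ : NumberField ↥M, relDisc K ↥M = 1 := by
  subst hM
  have hN : NumberField ↥(⊥ : IntermediateField K Ω) := NumberField.of_module_finite K _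
  refine ⟨hN, ?_⟩
  have h3 := h2.1 K ↥(⊥ : IntermediateField K Ω)
  have h4 : discr ↥(⊥ : IntermediateField K Ω) = discr K :=
    discr_eq_discr_of_ringEquiv _ (IntermediateField.botEquiv K Ω).toRingEquiv
  have h5 : Module.finrank K ↥(⊥ : IntermediateField K Ω) = 1 := IntermediateField.finrank_bot
  rw [h4, h5, pow_one] at h3
  have h6 : (discr K).natAbs ≠ 0 := by
    rw [Int.natAbs_ne_zero]
    exact discr_ne_zero K
  have h7 : relDisc K ↥(⊥ : IntermediateField K Ω) * (discr K).natAbs =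
      1 * (discr K).natAbs := by
    rw [one_mul]
    exact h3.symm
  exact Nat.eq_of_mul_eq_mul_right (Nat.pos_of_ne_zero h6) h7

/-- compositum of two fields -/
theorem step (h1 : S_DD) (K Ω : Type) [Field K] [NumberField K] [Field Ω] [Algebra K Ω]
    (A B M : IntermediateField K Ω) [NumberField ↥A] [NumberField ↥B] [NumberField ↥M]
    [FiniteDimensional K ↥M]
    (hA : A ≤ M) (hB : B ≤ M) (hgen : ∀ F : IntermediateField K Ω, A ≤ F → B ≤ F → M ≤ F) :
    ∃ u v : ℕ, Module.finrank K ↥A * u = Module.finrank K ↥M ∧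
      Module.finrank K ↥B * v = Module.finrank K ↥M ∧
      relDisc K ↥M ≤ relDisc K ↥A ^ u * relDisc K ↥B ^ v := by
  letI algA : Algebra ↥A ↥M := (IntermediateField.inclusion hA).toRingHom.toAlgebra
  letI algB : Algebra ↥B ↥M := (IntermediateField.inclusion hB).toRingHom.toAlgebra
  have tA : IsScalarTower K ↥A ↥M := IsScalarTower.of_algebraMap_eq (fun x => rfl)
  have tB : IsScalarTower K ↥B ↥M := IsScalarTower.of_algebraMap_eq (fun x => rfl)
  have hG : Gen K ↥A ↥B ↥M := by
    intro F hFA hFB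
    have h3 : M ≤ IntermediateField.lift F := by
      apply hgen
      · intro a ha
        rw [IntermediateField.mem_lift (⟨a, hA ha⟩ : ↥M)]
        exact hFA ⟨a, ha⟩
      · intro b hb
        rw [IntermediateField.mem_lift (⟨b, hB hb⟩ : ↥M)]
        exact hFB ⟨b, hb⟩
    rw [eq_top_iff]
    intro x _
    have h4 := h3 x.2
    rwa [IntermediateField.mem_lift x] at h4
  refine ⟨Module.finrank ↥A ↥M, Module.finrank ↥B ↥M, Module.finrank_mul_finrank K ↥A ↥M,
    Module.finrank_mul_finrank K ↥B ↥M, h1 K ↥A ↥B ↥M hG⟩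

theorem dm (h1 : S_DD) (h2 : S_DI) : S_DM := by
  intro K Ω _ _ _ _ n r
  induction r with
  | zero =>
    intro X L hn hX hL
    have h3 : (⨆ i, L i) = ⊥ := iSup_of_empty L
    obtain ⟨hN, h4⟩ := relDisc_bot h2 K Ω (⨆ i, L i) h3
    refine ⟨hN, ?_⟩
    rw [h4]
    simp
  | succ r ih =>
    intro X L hn hX hL
    obtain ⟨hN', h3⟩ := ih X (fun i => L i.castSucc) hn hX (fun i => hL i.castSucc)
    obtain ⟨hfB, hNB, hXB⟩ := hL (Fin.last r)
    have hfd : ∀ i, FiniteDimensional K ↥(L i) := fun i =>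
      Module.finite_of_finrank_pos (by rw [(hL i).1]; omega)
    have hfdM : FiniteDimensional K ↥(⨆ i, L i) := inferInstance
    have hNM : NumberField ↥(⨆ i, L i) := NumberField.of_module_finite K _
    refine ⟨hNM, ?_⟩
    obtain ⟨u, v, hu, hv, hle⟩ := step h1 K Ω (⨆ i : Fin r, L i.castSucc) (L (Fin.last r))
      (⨆ i, L i) (iSup_le fun i => le_iSup L i.castSucc) (le_iSup L (Fin.last r)) (by
        intro F hFA hFB
        apply iSup_le
        intro i
        refine Fin.lastCases ?_ (fun j => ?_) i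
        · exact hFB
        · exact le_trans (le_iSup (fun j : Fin r => L j.castSucc) j) hFA)
    rw [hfB] at hv
    have hleR : (relDisc K ↥(⨆ i, L i) : ℝ) ≤
        (relDisc K ↥(⨆ i : Fin r, L i.castSucc) : ℝ) ^ u *
          (relDisc K ↥(L (Fin.last r)) : ℝ) ^ v := by
      exact_mod_cast hle
    have h0 : (0 : ℝ) ≤ (relDisc K ↥(⨆ i, L i) : ℝ) := Nat.cast_nonneg _
    have hA0 : (0 : ℝ) ≤ (relDisc K ↥(⨆ i : Fin r, L i.castSucc) : ℝ) := Nat.cast_nonneg _
    have hB0 : (0 : ℝ) ≤ (relDisc K ↥(L (Fin.last r)) : ℝ) := Nat.cast_nonneg _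
    have hX0 : (0 : ℝ) ≤ X := by linarith
    calc (relDisc K ↥(⨆ i, L i) : ℝ) ^ n
        ≤ ((relDisc K ↥(⨆ i : Fin r, L i.castSucc) : ℝ) ^ u *
          (relDisc K ↥(L (Fin.last r)) : ℝ) ^ v) ^ n := pow_le_pow_left₀ h0 hleR n
      _ = ((relDisc K ↥(⨆ i : Fin r, L i.castSucc) : ℝ) ^ n) ^ u *
          (relDisc K ↥(L (Fin.last r)) : ℝ) ^ (n * v) := by
          rw [mul_pow, ← pow_mul, ← pow_mul, ← pow_mul, mul_comm u n, mul_comm v n]
      _ ≤ (X ^ (r * Module.finrank K ↥(⨆ i : Fin r, L i.castSucc))) ^ u * X ^ (n * v) := by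
          apply mul_le_mul
          · exact pow_le_pow_left₀ (pow_nonneg hA0 n) h3 u
          · exact pow_le_pow_left₀ hB0 hXB (n * v)
          · positivity
          · positivity
      _ = X ^ ((r + 1) * Module.finrank K ↥(⨆ i, L i)) := by
          rw [← pow_mul, ← pow_add, hv]
          congr 1
          rw [add_mul, one_mul, ← hu]
          ring

end Pool.Agent.W737.ML2.DM
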